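import Pool.Agent.Helper68.QC.St1

/-!
# Project QD, part M, module HLQ: Hoelder continuity of normalised smooth quasiconformal maps
-/

open MeasureTheory Set Filter Topology Complex
open scoped ContDiff ComplexConjugate ENNReal

namespace Pool.Agent.Helper16.QC

open Pool.Agent.Helper68.QC

private lemma vol_le (w : ℂ ≃ₜ ℂ) (p : ℂ) (ρ d : ℝ) (hd : 0 ≤ d)
    (h : ∀ z, ‖z - p‖ ≤ ρ → ‖w z - w p‖ ≤ d) :
    (volume (w '' Metric.ball p ρ)).toReal ≤ Real.pi * d ^ 2 := by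
  have h1 : w '' Metric.ball p ρ ⊆ Metric.closedBall (w p) d := by
    rintro _ ⟨z, hz, rfl⟩
    rw [mem_closedBall_iff_norm]
    rw [mem_ball_iff_norm] at hz
    exact h z hz.le
  have h3 : (volume (Metric.closedBall (w p) d)).toReal = Real.pi * d ^ 2 := by
    rw [Complex.volume_closedBall, ENNReal.toReal_mul, ENNReal.toReal_pow,
      ENNReal.toReal_ofReal hd, mul_comm]
    simp
  rw [← h3]
  exact ENNReal.toReal_mono measure_closedBall_lt_top.ne (measure_mono h1)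

private lemma step (hMOD : StMOD) {k : ℝ} (hk0 : 0 ≤ k) (hk1 : k < 1) (w : ℂ ≃ₜ ℂ)
    (hw : QS k w) (p : ℂ) (r ρ e : ℝ) (hr : 0 < r) (he : 0 ≤ e)
    (hρ : ρ = r * Real.exp (4 * Real.pi ^ 2 * ((1 + k) / (1 - k))))
    (h : ∀ z, ‖z - p‖ ≤ ρ → ‖w z - w p‖ ^ 2 ≤ e) (q : ℂ) (hq : ‖q - p‖ ≤ r) :
    ‖w q - w p‖ ^ 2 ≤ e / 2 := by
  have hK : 0 < (1 + k) / (1 - k) := div_pos (by linarith) (by linarith)
  have hπ := Real.pi_pos
  have hL : 0 < 4 * Real.pi ^ 2 * ((1 + k) / (1 - k)) := by positivity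
  have hrρ : r < ρ := by
    rw [hρ]
    exact lt_mul_of_one_lt_right hr (Real.one_lt_exp_iff.2 hL)
  have h1 := hMOD k hk0 hk1 w hw p r ρ hr hrρ p (Metric.mem_closedBall_self hr.le) q
    (mem_closedBall_iff_norm.2 hq)
  have h2 := vol_le w p ρ (Real.sqrt e) (Real.sqrt_nonneg e)
    (fun z hz => Real.le_sqrt_of_sq_le (h z hz))
  rw [Real.sq_sqrt he] at h2
  have h3 : Real.log (ρ / r) = 4 * Real.pi ^ 2 * ((1 + k) / (1 - k)) := by
    rw [hρ, mul_div_cancel_left₀ _ hr.ne', Real.log_exp]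
  rw [h3] at h1
  have h4 := h1.trans (mul_le_mul_of_nonneg_left h2
    (by positivity : 0 ≤ 2 * Real.pi * ((1 + k) / (1 - k))))
  have h5 : ‖w q - w p‖ = ‖w p - w q‖ := norm_sub_rev _ _
  rw [h5]
  have h6 : (4 * Real.pi ^ 2 * ((1 + k) / (1 - k))) * ‖w p - w q‖ ^ 2 ≤
      (4 * Real.pi ^ 2 * ((1 + k) / (1 - k))) * (e / 2) := by
    nlinarith [h4]
  exact le_of_mul_le_mul_left h6 hL

private lemma main (hMOD : StMOD) (hGRW : StGRW) (k : ℝ) (hk0 : 0 ≤ k) (hk1 : k < 1) (R : ℝ) :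
    ∃ C : ℝ, ∃ β > (0 : ℝ), ∀ w : ℂ ≃ₜ ℂ, QS k w → w 0 = 0 → w 1 = 1 → ∀ p q, ‖p‖ ≤ R → ‖q‖ ≤ R →
      ‖w p - w q‖ ≤ C * ‖p - q‖ ^ β := by
  have hK : 0 < (1 + k) / (1 - k) := div_pos (by linarith) (by linarith)
  have hπ := Real.pi_pos
  set L : ℝ := 4 * Real.pi ^ 2 * ((1 + k) / (1 - k)) with hL
  have hL0 : 0 < L := by positivity
  obtain ⟨M, hM⟩ := hGRW k hk0 hk1 (R + 1)
  obtain ⟨β, hβ⟩ : ∃ β : ℝ, β = Real.log 2 / (2 * L) := ⟨_, rfl⟩
  have hl2 : 0 < Real.log 2 := Real.log_pos one_lt_two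
  have hβ0 : 0 < β := by
    rw [hβ]
    positivity
  refine ⟨4 * |M|, β, hβ0, fun w hw w0 w1 p q hp hq => ?_⟩
  have hM0 := abs_nonneg M
  have hb : ∀ z, ‖z‖ ≤ R + 1 → ‖w z‖ ≤ |M| := fun z hz => (hM w hw w0 w1 z hz).trans (le_abs_self M)
  have hpq : ‖w p - w q‖ ≤ 2 * |M| := by
    have h1 := hb p (by linarith)
    have h2 := hb q (by linarith)
    linarith [norm_sub_le (w p) (w q)]
  rcases eq_or_ne p q with rfl | hne
  · rw [sub_self, norm_zero]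
    positivity
  have ht0 : 0 < ‖p - q‖ := norm_pos_iff.2 (sub_ne_zero.2 hne)
  rcases le_total 1 ‖p - q‖ with h1 | h1
  · have h2 : 1 ≤ ‖p - q‖ ^ β := Real.one_le_rpow h1 hβ0.le
    nlinarith
  -- the main case
  have key : ∀ n : ℕ, ∀ z, ‖z - p‖ ≤ Real.exp (-(n * L)) →
      ‖w z - w p‖ ^ 2 ≤ (2 * |M|) ^ 2 / 2 ^ n := by
    intro n
    induction n with
    | zero =>
      intro z hz
      simp only [Nat.cast_zero, zero_mul, neg_zero, Real.exp_zero] at hz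
      have h2 : ‖z‖ ≤ R + 1 := by
        have h3 : z = p + (z - p) := by ring
        rw [h3]
        exact (norm_add_le _ _).trans (by linarith)
      have h3 : ‖w z - w p‖ ≤ 2 * |M| := by
        have h4 := hb z h2
        have h5 := hb p (by linarith)
        linarith [norm_sub_le (w z) (w p)]
      rw [pow_zero, div_one]
      exact pow_le_pow_left₀ (norm_nonneg _) h3 2
    | succ n ih =>
      intro z hz
      have h2 := step hMOD hk0 hk1 w hw p (Real.exp (-((n + 1 : ℕ) * L))) (Real.exp (-(n * L)))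
        ((2 * |M|) ^ 2 / 2 ^ n) (Real.exp_pos _) (by positivity) (by
          rw [← hL, ← Real.exp_add]
          congr 1
          push_cast
          ring) ih z hz
      refine h2.trans (le_of_eq ?_)
      rw [div_div, ← pow_succ]
  set n : ℕ := ⌊-Real.log ‖p - q‖ / L⌋₊ with hn
  have hlog : 0 ≤ -Real.log ‖p - q‖ / L :=
    div_nonneg (neg_nonneg.2 (Real.log_nonpos ht0.le h1)) hL0.le
  have hn1 : (n : ℝ) ≤ -Real.log ‖p - q‖ / L := Nat.floor_le hlog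
  have hn2 : -Real.log ‖p - q‖ / L < n + 1 := Nat.lt_floor_add_one _
  have h2 : ‖q - p‖ ≤ Real.exp (-(n * L)) := by
    rw [norm_sub_rev, ← Real.log_le_iff_le_exp ht0]
    rw [le_div_iff₀ hL0] at hn1
    linarith
  have h3 := key n q h2
  rw [norm_sub_rev] at h3
  have h4 : (1 : ℝ) / 2 ^ n ≤ 2 * (‖p - q‖ ^ β) ^ 2 := by
    have h5 : (‖p - q‖ ^ β) ^ 2 = Real.exp (Real.log 2 * (Real.log ‖p - q‖ / L)) := by
      rw [← Real.rpow_natCast, ← Real.rpow_mul ht0.le, Real.rpow_def_of_pos ht0, hβ]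
      congr 1
      field_simp
      push_cast
      ring
    have h6 : (1 : ℝ) / 2 ^ n = Real.exp (-(Real.log 2 * n)) := by
      rw [Real.exp_neg, ← Real.rpow_def_of_pos two_pos, Real.rpow_natCast, one_div]
    have h7 : (2 : ℝ) = Real.exp (Real.log 2) := (Real.exp_log two_pos).symm
    rw [h5, h6]
    nth_rewrite 2 [h7]
    rw [← Real.exp_add, Real.exp_le_exp]
    have h8 : 0 < Real.log 2 := Real.log_pos one_lt_two
    have h9 : -Real.log ‖p - q‖ / L = -(Real.log ‖p - q‖ / L) := by ring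
    rw [h9] at hn2
    nlinarith
  have h5 : ‖w p - w q‖ ^ 2 ≤ (4 * |M| * ‖p - q‖ ^ β) ^ 2 := by
    have h6 : (2 * |M|) ^ 2 / 2 ^ n = (2 * |M|) ^ 2 * (1 / 2 ^ n) := by ring
    rw [h6] at h3
    have h7 := h3.trans (mul_le_mul_of_nonneg_left h4 (sq_nonneg (2 * |M|)))
    nlinarith [sq_nonneg (|M| * ‖p - q‖ ^ β)]
  exact abs_le_of_sq_le_sq' h5 (by positivity) |>.2

/-- The statement of HLQ with a REAL exponent. -/
def StHLQR : Prop := ∀ k, 0 ≤ k → k < 1 → ∀ R : ℝ, ∃ C : ℝ, ∃ β > (0 : ℝ), ∀ w : ℂ ≃ₜ ℂ, QS k w →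
  w 0 = 0 → w 1 = 1 → ∀ p q, ‖p‖ ≤ R → ‖q‖ ≤ R → ‖w p - w q‖ ≤ C * ‖p - q‖ ^ β ∧
    ‖w.symm p - w.symm q‖ ≤ C * ‖p - q‖ ^ β

/-- Module HLQ (real exponent). -/
theorem pHLQ (hQIN : StQIN) (hMOD : StMOD) (hGRW : StGRW) : StHLQR := by
  intro k hk0 hk1 R
  obtain ⟨C, β, hβ, h⟩ := main hMOD hGRW k hk0 hk1 R
  refine ⟨C, β, hβ, fun w hw w0 w1 p q hp hq => ⟨h w hw w0 w1 p q hp hq, ?_⟩⟩
  obtain ⟨W, hW, hWs⟩ := hQIN k hk1 w hw
  have hWw : W = w := Homeomorph.ext hW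
  rw [hWw] at hWs
  exact h w.symm hWs (by rw [Homeomorph.symm_apply_eq, w0]) (by rw [Homeomorph.symm_apply_eq, w1])
    p q hp hq

end Pool.Agent.Helper16.QC
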